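import Mathlib
import Pool.Agent.Helper75.SepFinal

set_option autoImplicit false

namespace Pool.Agent.Results.MP_68b2c8_al.Unbounded

/-- `A` is self-separable for `G`: some `g ∈ G` satisfies `A ∩ A^g = ∅`. -/
def SelfSeparable {Ω : Type} [DecidableEq Ω] (G : Subgroup (Equiv.Perm Ω)) (A : Finset Ω) : Prop :=
  ∃ g ∈ G, A ∩ A.image g = ∅

/-- `m(G)`: the least size of a subset of `Ω` that is not self-separable for `G`. -/
noncomputable def m {Ω : Type} [DecidableEq Ω] (G : Subgroup (Equiv.Perm Ω)) : ℕ :=
  sInf {s : ℕ | ∃ A : Finset Ω, A.card = s ∧ ¬ SelfSeparable G A}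

section Hamming

variable (α : Type) [DecidableEq α]

/-- The group of all permutations of `α³` preserving the Hamming distance, i.e. the wreath product
`Sym(α) wr Sym(3)` in product action. -/
def hammingGroup : Subgroup (Equiv.Perm (Fin 3 → α)) where
  carrier := {g | ∀ x y, hammingDist (g x) (g y) = hammingDist x y}
  mul_mem' := by
    intro g h hg hh x y
    rw [Equiv.Perm.mul_apply, Equiv.Perm.mul_apply, hg, hh]
  one_mem' := by
    intro x y; rfl
  inv_mem' := by
    intro g hg x y
    have h := hg (g.symm x) (g.symm y)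
    rw [Equiv.apply_symm_apply, Equiv.apply_symm_apply] at h
    exact h.symm

variable {α}

/-- The element of the base group. -/
def base (h : Fin 3 → Equiv.Perm α) : Equiv.Perm (Fin 3 → α) := Equiv.piCongrRight h

theorem base_apply (h : Fin 3 → Equiv.Perm α) (x : Fin 3 → α) (i : Fin 3) :
    base h x i = h i (x i) := rfl

theorem base_mem (h : Fin 3 → Equiv.Perm α) : base h ∈ hammingGroup α := by
  intro x y
  exact hammingDist_comp (fun i => h i) (fun i => (h i).injective)

/-- The permutation of the coordinates. -/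
def coord (σ : Equiv.Perm (Fin 3)) : Equiv.Perm (Fin 3 → α) :=
  Equiv.arrowCongr σ (Equiv.refl α)

theorem coord_apply (σ : Equiv.Perm (Fin 3)) (x : Fin 3 → α) (i : Fin 3) :
    coord σ x i = x (σ.symm i) := rfl

theorem coord_mem (σ : Equiv.Perm (Fin 3)) : (coord σ : Equiv.Perm (Fin 3 → α)) ∈ hammingGroup α := by
  intro x y
  unfold hammingDist
  refine Finset.card_bij' (fun i _ => σ.symm i) (fun i _ => σ i) ?_ ?_ ?_ ?_
  · intro i hi
    rw [Finset.mem_filter] at hi ⊢
    exact ⟨Finset.mem_univ _, hi.2⟩
  · intro i hi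
    rw [Finset.mem_filter] at hi ⊢
    refine ⟨Finset.mem_univ _, ?_⟩
    rw [coord_apply, coord_apply, Equiv.symm_apply_apply]
    exact hi.2
  · intro i _; simp
  · intro i _; simp

theorem two_transitive (a b c d : α) (hab : a ≠ b) (hcd : c ≠ d) :
    ∃ h : Equiv.Perm α, h a = c ∧ h b = d := by
  refine ⟨Equiv.swap (Equiv.swap a c b) d * Equiv.swap a c, ?_, ?_⟩
  · rw [Equiv.Perm.mul_apply, Equiv.swap_apply_left]
    refine Equiv.swap_apply_of_ne_of_ne ?_ hcd
    intro h
    have h1 : Equiv.swap a c a = Equiv.swap a c b := by rw [Equiv.swap_apply_left]; exact h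
    exact hab ((Equiv.swap a c).injective h1)
  · rw [Equiv.Perm.mul_apply, Equiv.swap_apply_left]

/-- The group is transitive on ordered pairs of points differing in exactly one coordinate. -/
theorem pair_transitive (y w : Fin 3 → α) (i j : Fin 3) (a c : α) (ha : a ≠ y i) (hc : c ≠ w j) :
    ∃ g ∈ hammingGroup α, g y = w ∧ g (Function.update y i a) = Function.update w j c := by
  classical
  obtain ⟨h₀, h1, h2⟩ := two_transitive (y i) a (w j) c ha.symm hc.symm
  set σ : Equiv.Perm (Fin 3) := Equiv.swap i j with hσ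
  set h : Fin 3 → Equiv.Perm α := fun l =>
    if l = j then h₀ else Equiv.swap (y (σ.symm l)) (w l) with hh
  have hσj : σ.symm j = i := by simp [hσ]
  have hσi : ∀ l, σ.symm l = i ↔ l = j := by
    intro l
    rw [← hσj]
    exact σ.symm.injective.eq_iff
  refine ⟨base h * coord σ, (hammingGroup α).mul_mem (base_mem h) (coord_mem σ), ?_, ?_⟩
  · funext l
    rw [Equiv.Perm.mul_apply, base_apply, coord_apply]
    simp only [hh]
    by_cases hl : l = j
    · subst hl
      rw [if_pos rfl, hσj, h1]
    · rw [if_neg hl, Equiv.swap_apply_left]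
  · funext l
    rw [Equiv.Perm.mul_apply, base_apply, coord_apply]
    simp only [hh]
    by_cases hl : l = j
    · subst hl
      rw [if_pos rfl, hσj, Function.update_self, Function.update_self, h2]
    · rw [if_neg hl, Function.update_of_ne (fun h => hl ((hσi l).mp h)), Function.update_of_ne hl,
        Equiv.swap_apply_left]

open Pointwise in
/-- The action is primitive when `|α| ≥ 3`. -/
theorem isPreprimitive [Fintype α] (hα : 3 ≤ Fintype.card α) :
    MulAction.IsPreprimitive (hammingGroup α) (Fin 3 → α) := by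
  classical
  have htrans : MulAction.IsPretransitive (hammingGroup α) (Fin 3 → α) := by
    refine ⟨fun x y => ?_⟩
    refine ⟨⟨base (fun i => Equiv.swap (x i) (y i)), base_mem _⟩, ?_⟩
    funext i
    exact Equiv.swap_apply_left _ _
  refine { toIsPretransitive := htrans, isTrivialBlock_of_isBlock := ?_ }
  intro B hB
  by_cases hsub : B.Subsingleton
  · exact Or.inl hsub
  right
  rw [Set.not_subsingleton_iff] at hsub
  obtain ⟨x, hx, y, hy, hxy⟩ := hsub
  have hstab : ∀ g ∈ hammingGroup α, ∀ z ∈ B, g z ∈ B → ∀ z' ∈ B, g z' ∈ B := by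
    intro g hg z hz hgz z' hz'
    have h1 : (⟨g, hg⟩ : hammingGroup α) • B = (1 : hammingGroup α) • B := by
      by_contra hne
      have h2 := hB hne
      rw [Set.disjoint_left] at h2
      exact h2 (Set.smul_mem_smul_set hz) (by rw [one_smul]; exact hgz)
    rw [one_smul] at h1
    rw [← h1]
    exact Set.smul_mem_smul_set hz'
  obtain ⟨i, hi⟩ := Function.ne_iff.mp hxy
  -- a value different from `x i` and `y i`
  obtain ⟨c, hc⟩ : ∃ c, c ∉ ({x i, y i} : Finset α) := by
    by_contra hcon
    push Not at hcon
    have h1 : (Finset.univ : Finset α) ⊆ {x i, y i} := fun c _ => hcon c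
    have h2 := Finset.card_le_card h1
    rw [Finset.card_univ] at h2
    have h3 := Finset.card_le_two (a := x i) (b := y i)
    omega
  rw [Finset.mem_insert, Finset.mem_singleton, not_or] at hc
  -- `y` with its `i`-th coordinate replaced by `c`
  have hy' : Function.update y i c ∈ B := by
    have h1 := hstab (base (fun l => if l = i then Equiv.swap (y i) c else 1)) (base_mem _) x hx
      (by
        have : base (fun l => if l = i then Equiv.swap (y i) c else 1) x = x := by
          funext l
          rw [base_apply]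
          by_cases hl : l = i
          · subst hl
            rw [if_pos rfl]
            exact Equiv.swap_apply_of_ne_of_ne hi (Ne.symm hc.1)
          · rw [if_neg hl]; rfl
        rw [this]; exact hx) y hy
    have h2 : base (fun l => if l = i then Equiv.swap (y i) c else 1) y
        = Function.update y i c := by
      funext l
      rw [base_apply]
      by_cases hl : l = i
      · subst hl
        rw [if_pos rfl, Function.update_self, Equiv.swap_apply_left]
      · rw [if_neg hl, Function.update_of_ne hl]; rfl
    rw [← h2]; exact h1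
  -- the block is closed under all updates
  have hupd : ∀ w ∈ B, ∀ (j : Fin 3) (d : α), Function.update w j d ∈ B := by
    intro w hw j d
    by_cases hd : d = w j
    · rw [hd, Function.update_eq_self]; exact hw
    · obtain ⟨g, hg, hgy, hgy'⟩ := pair_transitive y w i j c d hc.2 hd
      rw [← hgy']
      exact hstab g hg y hy (by rw [hgy]; exact hw) _ hy'
  rw [Set.eq_univ_iff_forall]
  intro z
  have h1 : Function.update (Function.update (Function.update x 0 (z 0)) 1 (z 1)) 2 (z 2) = z := by
    funext l
    fin_cases l <;> simp [Function.update]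
  rw [← h1]
  exact hupd _ (hupd _ (hupd _ hx _ _) _ _) _ _

/-- Some even permutation does not preserve the Hamming distance. -/
theorem exists_even_not_mem [Fintype α] (a b : α) (hab : a ≠ b) :
    ∃ g : Equiv.Perm (Fin 3 → α), g ∈ alternatingGroup (Fin 3 → α) ∧ g ∉ hammingGroup α := by
  classical
  set x : Fin 3 → α := ![a, a, a] with hx
  set y : Fin 3 → α := ![b, a, a] with hy
  set z : Fin 3 → α := ![b, b, a] with hz
  set w : Fin 3 → α := ![a, a, b] with hw
  have hxy : x ≠ y := by
    intro h; exact hab (congrFun h 0)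
  have hyz : y ≠ z := by
    intro h; exact hab (congrFun h 1)
  have hxz : x ≠ z := by
    intro h; exact hab (congrFun h 0)
  have hxw : x ≠ w := by
    intro h; exact hab (congrFun h 2)
  have hyw : y ≠ w := by
    intro h; exact hab (congrFun h 2)
  have hzw : z ≠ w := by
    intro h; exact hab (congrFun h 2)
  refine ⟨Equiv.swap x y * Equiv.swap y z, ?_, ?_⟩
  · rw [Equiv.Perm.mem_alternatingGroup, Equiv.Perm.sign_mul, Equiv.Perm.sign_swap hxy,
      Equiv.Perm.sign_swap hyz]
    rfl
  · intro hmem
    have h1 := hmem x w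
    rw [Equiv.Perm.mul_apply, Equiv.Perm.mul_apply, Equiv.swap_apply_of_ne_of_ne hxy hxz,
      Equiv.swap_apply_left, Equiv.swap_apply_of_ne_of_ne hyw.symm hzw.symm,
      Equiv.swap_apply_of_ne_of_ne hxw.symm hyw.symm] at h1
    have h2 : hammingDist y w = 2 := by
      rw [hammingDist, hy, hw]
      have : (Finset.univ.filter (fun i : Fin 3 => (![b, a, a] : Fin 3 → α) i ≠ ![a, a, b] i))
          = {0, 2} := by
        ext i; fin_cases i <;> simp [hab, hab.symm]
      rw [this]; rfl
    have h3 : hammingDist x w = 1 := by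
      rw [hammingDist, hx, hw]
      have : (Finset.univ.filter (fun i : Fin 3 => (![a, a, a] : Fin 3 → α) i ≠ ![a, a, b] i))
          = {2} := by
        ext i; fin_cases i <;> simp [hab]
      rw [this]; rfl
    omega

end Hamming

/-- The negated form of Q1: for every `C` there are primitive permutation groups `G` of arbitrarily
large degree `n`, different from `Alt(n)` and `Sym(n)`, with `m(G) > C √n`. -/
theorem result : ∀ (C : ℝ) (N₀ : ℕ), ∃ (Ω : Type) (_ : Fintype Ω) (_ : DecidableEq Ω)
    (G : Subgroup (Equiv.Perm Ω)), N₀ ≤ Fintype.card Ω ∧ MulAction.IsPreprimitive G Ω ∧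
      G ≠ ⊤ ∧ G ≠ alternatingGroup Ω ∧ C * Real.sqrt (Fintype.card Ω) < m G := by
  classical
  intro C N₀
  obtain ⟨C', hC'⟩ := exists_nat_ge C
  obtain ⟨q₀, hq₀⟩ := Pool.Agent.Helper75.Sep.main C'
  set q := q₀ + N₀ + 2 with hq
  set α := Fin (q ^ 2) with hα
  have hcardα : Fintype.card α = q ^ 2 := Fintype.card_fin _
  have hq2 : 2 ≤ q := by omega
  have hcard3 : 3 ≤ Fintype.card α := by rw [hcardα]; nlinarith
  have hcardΩ : Fintype.card (Fin 3 → α) = (q ^ 3) ^ 2 := by
    rw [Fintype.card_fun, hcardα, Fintype.card_fin]; ring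
  have hpos : 0 < q ^ 2 := by positivity
  have hlt1 : 1 < q ^ 2 := by nlinarith
  obtain ⟨g, hgalt, hgnot⟩ := exists_even_not_mem (α := α) ⟨0, hpos⟩ ⟨1, hlt1⟩ (by
    intro h; simpa using congrArg Fin.val h)
  refine ⟨Fin 3 → α, inferInstance, inferInstance, hammingGroup α, ?_, isPreprimitive hcard3,
    ?_, ?_, ?_⟩
  · rw [hcardΩ]
    have h1 : N₀ ≤ q := by omega
    have h2 : q ≤ (q ^ 3) ^ 2 := by
      rw [← pow_mul]
      exact Nat.le_self_pow (by norm_num) q
    omega
  · intro h
    apply hgnot
    rw [h]
    exact Subgroup.mem_top g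
  · intro h
    apply hgnot
    rw [h]
    exact hgalt
  · -- the main estimate
    have hne : {s : ℕ | ∃ A : Finset (Fin 3 → α), A.card = s ∧
        ¬ SelfSeparable (hammingGroup α) A}.Nonempty := by
      refine ⟨_, Finset.univ, rfl, ?_⟩
      rintro ⟨g, _, hg⟩
      have h1 : (fun _ => (⟨0, hpos⟩ : α)) ∈ (Finset.univ : Finset (Fin 3 → α)) ∩
          (Finset.univ : Finset (Fin 3 → α)).image g := by
        rw [Finset.mem_inter]
        refine ⟨Finset.mem_univ _, Finset.mem_image.mpr
          ⟨g.symm (fun _ => (⟨0, hpos⟩ : α)), Finset.mem_univ _, ?_⟩⟩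
        exact Equiv.apply_symm_apply g _
      rw [hg] at h1
      exact absurd h1 (Finset.notMem_empty _)
    obtain ⟨A, hA, hAsep⟩ := Nat.sInf_mem hne
    have hmA : m (hammingGroup α) = A.card := hA.symm
    have hbig : C' * q ^ 3 < m (hammingGroup α) := by
      by_contra hle
      push Not at hle
      rw [hmA] at hle
      apply hAsep
      set e : (Fin 3 → α) → α × α × α := fun x => (x 0, x 1, x 2) with he
      have heinj : Function.Injective e := by
        intro x y hxy
        simp only [he, Prod.mk.injEq] at hxy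
        funext l
        fin_cases l
        · exact hxy.1
        · exact hxy.2.1
        · exact hxy.2.2
      obtain ⟨g₁, g₂, g₃, hg⟩ := hq₀ q (by omega) α hcardα (A.image e)
        (le_trans Finset.card_image_le hle)
      refine ⟨base ![g₁, g₂, g₃], base_mem _, ?_⟩
      rw [← Finset.disjoint_iff_inter_eq_empty, Finset.disjoint_right]
      intro x hx hxA
      rw [Finset.mem_image] at hx
      obtain ⟨y, hy, hyx⟩ := hx
      apply hg (e y) (Finset.mem_image_of_mem e hy)
      rw [Finset.mem_image]
      refine ⟨x, hxA, ?_⟩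
      rw [← hyx]
      rfl
    have hsqrt : Real.sqrt (Fintype.card (Fin 3 → α)) = (q : ℝ) ^ 3 := by
      rw [hcardΩ]
      push_cast
      exact Real.sqrt_sq (by positivity)
    rw [hsqrt]
    calc C * (q : ℝ) ^ 3 ≤ C' * (q : ℝ) ^ 3 := by gcongr
      _ = ((C' * q ^ 3 : ℕ) : ℝ) := by push_cast; ring
      _ < m (hammingGroup α) := by exact_mod_cast hbig

end Pool.Agent.Results.MP_68b2c8_al.Unbounded
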